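import Pool.Agent.Lib.MP_a78e1f_lc.T.Iface

/-!
# KEYN: there is no embedding of the new points into the old points
-/

universe u v w

open Cardinal Filter MeasureTheory

namespace Pool.Agent.Lib.MP_a78e1f_lc.H50

open Pool.Agent.Lib.MP_100a6c_lc
open Pool.Agent.Lib.MP_c5d73d_lc.F (pr)
open Pool.Agent.Lib.MP_e6fef2_lc
open Pool.Agent.Lib.MP_6d445e_gt
open Pool.Agent.Lib.MP_6d445e_gt.H70 (rst rst_le rst_eq rst_bot)

/-! ## Lists of bits -/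

theorem res_length (x : Cs) (n : ℕ) : (res x n).length = n := by
  simp [res]

theorem res_get {x : Cs} {n m : ℕ} (h : m < n) : (res x n)[m]? = some (x m) := by
  have h1 : (res x n)[m]? = Option.map x ((List.range n)[m]?) := by
    unfold res
    rw [List.getElem?_map]
  rw [h1, List.getElem?_range h]
  rfl

theorem get_of_res {x : Cs} {τ : List Bool} (h : res x τ.length = τ) {m : ℕ} (hm : m < τ.length) :
    τ[m]? = some (x m) := by
  have h1 := res_get (x := x) hm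
  rwa [h] at h1

theorem eq_of_res {x : Cs} {ρ τ : List Bool} (h : res x ρ.length = ρ) (h' : res x τ.length = τ)
    (hl : ρ.length = τ.length) : ρ = τ := by
  rw [← h, ← h', hl]

theorem cpb_of_res {x : Cs} {ρ τ : List Bool} (h : res x ρ.length = ρ)
    (h' : res x τ.length = τ) : Cpb ρ τ := by
  have key : ∀ m n : ℕ, m ≤ n → res x m <+: res x n := by
    intro m n hmn
    have h1 : List.range m <+: List.range n := by
      obtain ⟨k, rfl⟩ := Nat.exists_eq_add_of_le hmn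
      rw [List.range_add]
      exact List.prefix_append _ _
    exact h1.map x
  rcases le_total ρ.length τ.length with h1 | h1
  · left
    have := key _ _ h1
    rwa [h, h'] at this
  · right
    have := key _ _ h1
    rwa [h, h'] at this

theorem get_of_cpb {τ τ' : List Bool} (h : Cpb τ τ') {n : ℕ} (h1 : n < τ.length)
    (h2 : n < τ'.length) : τ[n]? = τ'[n]? := by
  rcases h with ⟨s, rfl⟩ | ⟨s, rfl⟩
  · rw [List.getElem?_append_left h1]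
  · rw [List.getElem?_append_left h2]

theorem length_eq_of_cpb {τ τ' : List Bool} (h : Cpb τ τ') (h1 : τ.length = τ'.length) :
    τ = τ' := by
  rcases h with h | h
  · exact h.eq_of_length h1
  · exact (h.eq_of_length h1.symm).symm

/-! ## The slalom of `F` -/

section

variable {𝒯 : Set (List ℕ) → Prop} {A B : Type u} [CompleteBooleanAlgebra A]
  [CompleteBooleanAlgebra B]

/-- The pieces of the slalom. -/
noncomputable def keyn_w (φ : tC 𝒯 A → B) (c : B) (F : List Bool → List Bool → B) (t : List ℕ)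
    (ρ σ : List Bool) : RA B :=
  kap (c ⊓ φ (tND (t ++ [ρ.length])) ⊓ F σ ρ) ⊓ cy σ

/-- The slalom: the points `(Pc t, cd ρ)` such that `F` maps the random point to an extension of
`ρ`, where the length of `ρ` is the next entry of the generic branch above `t`. -/
noncomputable def keyn_x (φ : tC 𝒯 A → B) (c : B) (F : List Bool → List Bool → B) (n : ℕ) :
    RA B :=
  ⨆ t : List ℕ, ⨆ ρ : List Bool, ⨆ σ : List Bool, ⨆ _ : n = Nat.pair (Pc t) (cd ρ),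
    keyn_w φ c F t ρ σ

theorem keyn_le (φ : tC 𝒯 A → B) (c : B) (F : List Bool → List Bool → B) (t : List ℕ)
    (ρ σ : List Bool) : keyn_w φ c F t ρ σ ≤ keyn_x φ c F (Nat.pair (Pc t) (cd ρ)) :=
  le_iSup_of_le t (le_iSup_of_le ρ (le_iSup_of_le σ (le_iSup_of_le rfl le_rfl)))

/-- The name of the point computed by `G` from `ψ`. -/
noncomputable def keyn_th (φ : tC 𝒯 A → B) (G : List Bool → List Bool → B) (ψ : ℕ → A) (n : ℕ) :
    B :=
  ⨆ ρ : List Bool, ⨆ σ : List Bool, ⨆ _ : σ[n]? = some true, φ (tE 𝒯 A (pre ψ ρ)) ⊓ G ρ σ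

/-- The null set of the point with name `θ`. -/
def keyn_E (θ : ℕ → B) : Set (Pt B) := {p | p.2 = vx θ p.1}

theorem keyn_E_meas (θ : ℕ → B) : MeasurableSet (keyn_E θ) := by
  have h1 : keyn_E θ = ⋂ n, {p : Pt B | p.2 n = true ↔ θ n ∈ p.1} := by
    ext p
    simp only [keyn_E, Set.mem_ofPred_eq, Set.mem_iInter, funext_iff, vx]
    refine forall_congr' fun n => ?_
    cases p.2 n <;> simp
  rw [h1]
  refine MeasurableSet.iInter fun n => ?_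
  have h2 : MeasurableSet {p : Pt B | p.2 n = true} := by
    have h3 : Measurable fun p : Pt B => p.2 n := (measurable_pi_apply n).comp measurable_snd
    exact h3 (measurableSet_singleton true)
  have h4 : MeasurableSet {p : Pt B | θ n ∈ p.1} := measurable_fst (measurable_mem B (θ n))
  have h5 : {p : Pt B | p.2 n = true ↔ θ n ∈ p.1} =
      ({p : Pt B | p.2 n = true} ∩ {p : Pt B | θ n ∈ p.1}) ∪
      ({p : Pt B | p.2 n = true}ᶜ ∩ {p : Pt B | θ n ∈ p.1}ᶜ) := by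
    ext p
    simp only [Set.mem_ofPred_eq, Set.mem_union, Set.mem_inter_iff, Set.mem_compl_iff]
    tauto
  rw [h5]
  exact (h2.inter h4).union (h2.compl.inter h4.compl)

theorem keyn_E_nl (hcm : CmStatement) (θ : ℕ → B) : nl (keyn_E θ) := by
  refine Filter.Eventually.of_forall fun g => ?_
  have h1 : sec (keyn_E θ) g = {vx θ g} := by
    ext x
    simp [sec, keyn_E]
  rw [h1]
  exact hcm.2.1 _

/-- The slalom has at most one point in each section. -/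
theorem keyn_sl (hkap : KapStatement.{u}) (hgnd : GndStatement.{u}) (hcod : CodStatement)
    (h𝒯 : TFam 𝒯) {φ : tC 𝒯 A → B} (hφ : IsCE φ) {c : B} {F : List Bool → List Bool → B}
    (hF : Cons c F) : Sl (keyn_x φ c F) := by
  classical
  have hk : IsCE (kap : B → RA B) := (hkap B).1
  have hcy := (hkap B).2.2.2.2.1
  have hkb : kap (⊥ : B) = ⊥ := (all_alg B (RA B) kap hk).2.1
  have hki := (all_alg B (RA B) kap hk).2.2.1
  have hfb : φ (⊥ : tC 𝒯 A) = ⊥ := (all_alg _ B φ hφ).2.1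
  have hfi := (all_alg _ B φ hφ).2.2.1
  have hnd := (hgnd 𝒯 h𝒯 A).2.2.2.1
  refine ⟨fun _ => 1, ((H82.sla (RA B)).1 _ _ _).2 fun p S hS => ?_⟩
  obtain ⟨i, j, hij, rfl⟩ := Finset.card_eq_two.1 hS
  rw [top_inf_eq]
  have h1 : (⨅ k ∈ ({i, j} : Finset ℕ), keyn_x φ c F (Nat.pair p k)) ≤
      keyn_x φ c F (Nat.pair p i) ⊓ keyn_x φ c F (Nat.pair p j) := by
    refine le_inf (iInf₂_le i ?_) (iInf₂_le j ?_) <;> simp
  refine le_bot_iff.1 (h1.trans (le_of_eq (disjoint_iff.1 ?_)))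
  refine iSup_disjoint_iff.2 fun t => iSup_disjoint_iff.2 fun ρ => iSup_disjoint_iff.2 fun σ =>
    iSup_disjoint_iff.2 fun he => disjoint_iSup_iff.2 fun t' => disjoint_iSup_iff.2 fun ρ' =>
    disjoint_iSup_iff.2 fun σ' => disjoint_iSup_iff.2 fun he' => ?_
  obtain ⟨e1, e2⟩ := Nat.pair_eq_pair.1 he
  obtain ⟨e3, e4⟩ := Nat.pair_eq_pair.1 he'
  have ht : t = t' := hcod.1 (e1.symm.trans e3)
  subst ht
  have hρ : ρ ≠ ρ' := fun h => hij (by rw [e2, e4, h])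
  have hle := (all_alg B (RA B) kap hk).2.2.2.2.1
  unfold keyn_w
  by_cases hσ : Cpb σ σ'
  · have h2 : c ⊓ φ (tND (t ++ [ρ.length])) ⊓ F σ ρ ⊓ (c ⊓ φ (tND (t ++ [ρ'.length])) ⊓ F σ' ρ')
        ≤ ⊥ := by
      by_cases hl : ρ.length = ρ'.length
      · have hn : ¬ Cpb ρ ρ' := fun h => hρ (length_eq_of_cpb h hl)
        rw [← hF σ σ' ρ ρ' hσ hn]
        exact le_inf (le_inf (inf_le_left.trans (inf_le_left.trans inf_le_left))
          (inf_le_left.trans inf_le_right)) (inf_le_right.trans inf_le_right)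
      · have h3 : (tND (t ++ [ρ.length]) : tC 𝒯 A) ⊓ tND (t ++ [ρ'.length]) = ⊥ := by
          refine hnd _ _ fun h => hl ?_
          have h4 : t ++ [ρ.length] = t ++ [ρ'.length] := by
            rcases h with h | h
            · exact h.eq_of_length (by simp)
            · exact (h.eq_of_length (by simp)).symm
          simpa using h4
        have h5 : φ (tND (t ++ [ρ.length])) ⊓ φ (tND (t ++ [ρ'.length])) = ⊥ :=
          (hfi _ _).symm.trans ((congrArg φ h3).trans hfb)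
        rw [← h5]
        exact le_inf (inf_le_left.trans (inf_le_left.trans inf_le_right))
          (inf_le_right.trans (inf_le_left.trans inf_le_right))
    have h3 : kap (c ⊓ φ (tND (t ++ [ρ.length])) ⊓ F σ ρ) ⊓
        kap (c ⊓ φ (tND (t ++ [ρ'.length])) ⊓ F σ' ρ') ≤ ⊥ :=
      (le_of_eq (hki _ _).symm).trans (((hle _ _).2 h2).trans (le_of_eq hkb))
    exact disjoint_iff.2 (le_bot_iff.1 ((inf_le_inf inf_le_left inf_le_left).trans h3))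
  · exact (disjoint_iff.2 (hcy σ σ' hσ)).mono inf_le_right inf_le_right

/-! ## The condition -/

theorem disX_rst {D : Type u} [CompleteBooleanAlgebra D] (m : ℕ) (z : ℕ → RA D) (Y X : ℕ → D) :
    disX m z Y X ≤ disX 0 z (rst m Y) X := by
  refine le_iInf fun p => le_iInf fun _ => le_iInf fun i => ?_
  by_cases hp : m ≤ p
  · refine (iInf_le _ p).trans ((iInf_le _ hp).trans ((iInf_le _ i).trans ?_))
    exact compl_le_compl (inf_le_inf_left _ (rst_le m Y _))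
  · rw [rst_bot (by rw [Nat.unpair_pair]; exact hp), inf_bot_eq, compl_bot]
    exact le_top

/-- The condition `b`. -/
theorem keyn_cond (hdix : DixStatement.{u}) (hrfm : RfmStatement.{u})
    {D : Type u} [CompleteBooleanAlgebra D] {φ : D → B} (hφ : IsCE φ) {c : B} {x : ℕ → RA B}
    {z : ℕ → RA D} {N : Set El.{u}}
    (hev : ∀ X : ℕ → D, ∀ᶠ g in ae D, rn N X ∈ g → EvG N X g)
    (hev' : ∀ X : ℕ → B, ∀ᶠ g in ae B, rn N X ∈ g → EvG N X g)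
    (n1 : ∀ X Y : ℕ → D, gcX N X Y ⊓ ev X (itp (rmap φ) (prj (rmap φ)) (kap c) x z) ⊓
      disX 0 z Y X ≤ prj φ (gcX N (fun n => φ (X n)) (fun n => φ (Y n)) ⊓
        ev (fun n => φ (X n)) (kap c) ⊓ disX 0 x (fun n => φ (Y n)) fun n => φ (X n)))
    (hcN : In N c) (hpN : In N (prj φ c)) (hkN : In N (kap (prj φ c)))
    (hiN : In N (itp (rmap φ) (prj (rmap φ)) (kap c) x z))
    (hz : prj (rmap φ) (kap c) ≤ itp (rmap φ) (prj (rmap φ)) (kap c) x z) (hz2 : Sl z)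
    (hzN : In N z) {p : D} (hp0 : p ≠ ⊥) (hpc : p ≤ prj φ c) {X Y : ℕ → D}
    (hpY : p ≤ gcX N X Y) :
    ∃ (m : ℕ) (b : B), b ≠ ⊥ ∧ b ≤ c ∧ b ≤ φ p ∧ b ≤ rn N (fun n => φ (X n)) ∧
      b ≤ disX 0 x (fun n => φ (rst m Y n)) fun n => φ (X n) := by
  have hsup : p ≤ ⨆ n, disX n z Y X := by
    refine hpY.trans (inf_le_right.trans ?_)
    exact (iInf_le _ z).trans ((iInf_le _ hzN).trans (iInf_le _ hz2))
  obtain ⟨m, hm⟩ : ∃ m, p ⊓ disX m z Y X ≠ ⊥ := by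
    by_contra hcon
    push Not at hcon
    apply hp0
    have e3 : p ⊓ ⨆ n, disX n z Y X = ⊥ := by
      rw [inf_iSup_eq]
      exact iSup_eq_bot.2 hcon
    rwa [inf_eq_left.2 hsup] at e3
  have hpk : prj (rmap φ) (kap c) = kap (prj φ c) := (hrfm D B φ hφ).2.2.2.2.2.2.2.1 c
  have e3 : p ⊓ disX m z Y X ≤ prj φ (gcX N (fun n => φ (X n)) (fun n => φ (rst m Y n)) ⊓
      ev (fun n => φ (X n)) (kap c) ⊓ disX 0 x (fun n => φ (rst m Y n)) fun n => φ (X n)) := by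
    refine le_trans (le_inf (le_inf ?_ ?_) ?_) (n1 X (rst m Y))
    · exact inf_le_left.trans (hpY.trans ((hdix D).2.2 N X Y _ (rst_le m Y)))
    · refine le_of_ae ?_
      filter_upwards [hev X] with g hg hgp
      have g1 : p ∈ g := g.mono inf_le_left hgp
      have g2 : rn N X ∈ g := g.mono (hpY.trans (inf_le_left.trans inf_le_left)) g1
      have g3 := hg g2
      exact g3.mono _ _ hkN hiN (hpk ▸ hz) ((g3.kp _ hpN).2 (g.mono hpc g1))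
    · exact inf_le_right.trans (disX_rst m z Y X)
  have hlin := (all_alg D B φ hφ).2.2.2.2.2.2.2.2.2.2.2.2.2.2.2.2.1
  have hbot := (all_alg D B φ hφ).2.2.2.2.2.2.2.2.2.2.2.2.2.2.2.2.2.1
  have hle := (all_alg D B φ hφ).2.2.2.2.1
  refine ⟨m, gcX N (fun n => φ (X n)) (fun n => φ (rst m Y n)) ⊓
      ev (fun n => φ (X n)) (kap c) ⊓ (disX 0 x (fun n => φ (rst m Y n)) fun n => φ (X n)) ⊓
      φ (p ⊓ disX m z Y X), ?_, ?_, ?_, ?_, ?_⟩
  · intro h0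
    have e5 := (hbot _).2 h0
    rw [hlin, inf_eq_right.2 e3] at e5
    exact hm e5
  · refine le_of_ae ?_
    filter_upwards [hev' fun n => φ (X n)] with h hh h1
    have h2 := h.mono (inf_le_left.trans inf_le_left) h1
    have h3 : rn N (fun n => φ (X n)) ∈ h :=
      h.mono (inf_le_left.trans (inf_le_left.trans inf_le_left)) h2
    exact ((hh h3).kp _ hcN).1 (h.mono inf_le_right h2)
  · exact inf_le_right.trans ((hle _ _).2 inf_le_left)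
  · exact inf_le_left.trans (inf_le_left.trans (inf_le_left.trans
      (inf_le_left.trans inf_le_left)))
  · exact inf_le_left.trans inf_le_right

end

/-! ## The evaluation -/

section

variable {𝒯 : Set (List ℕ) → Prop} {A B : Type u} [CompleteBooleanAlgebra A]
  [CompleteBooleanAlgebra B]

/-- The pointwise meaning of `apv`. -/
theorem ae_apv {C : Type u} [CompleteBooleanAlgebra C] (hme : MeasStatement.{u})
    (F : List Bool → List Bool → C) (x y : ℕ → C) :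
    ∀ᶠ g in ae C, apv F x y ∈ g ↔ ∀ n : ℕ, ∃ σ τ : List Bool, τ.length = n ∧
      res (vx x g) σ.length = σ ∧ res (vx y g) τ.length = τ ∧ F σ τ ∈ g := by
  have h1 := ae_iInf (A := C) fun n : ℕ => ⨆ σ : List Bool, ⨆ τ : List Bool,
    ⨆ _ : τ.length = n, pre x σ ⊓ pre y τ ⊓ F σ τ
  have h2 : ∀ᶠ g in ae C, ∀ n : ℕ, (⨆ σ : List Bool, ⨆ τ : List Bool,
      ⨆ _ : τ.length = n, pre x σ ⊓ pre y τ ⊓ F σ τ) ∈ g ↔
      ∃ σ, (⨆ τ : List Bool, ⨆ _ : τ.length = n, pre x σ ⊓ pre y τ ⊓ F σ τ) ∈ g :=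
    ae_all fun n => ae_iSup _
  have h3 : ∀ᶠ g in ae C, ∀ (n : ℕ) (σ : List Bool), (⨆ τ : List Bool,
      ⨆ _ : τ.length = n, pre x σ ⊓ pre y τ ⊓ F σ τ) ∈ g ↔
      ∃ τ, (⨆ _ : τ.length = n, pre x σ ⊓ pre y τ ⊓ F σ τ) ∈ g :=
    ae_all fun n => ae_all fun σ => ae_iSup _
  filter_upwards [h1, h2, h3] with g g1 g2 g3
  unfold apv
  rw [g1]
  refine forall_congr' fun n => ?_
  rw [g2]
  refine exists_congr fun σ => ?_
  rw [g3]
  refine exists_congr fun τ => ?_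
  by_cases hn : τ.length = n
  · simp only [hn, iSup_pos, g.mem_inf, true_and]
    rw [(hme C).2.2.2.2.2.2.2.1 x σ g, (hme C).2.2.2.2.2.2.2.1 y τ g, hn, and_assoc]
  · simp [hn, g.not_bot]

/-- The pointwise meaning of `xr`. -/
theorem ae_xr (y : ℕ → A) : ∀ᶠ h in ae (tC 𝒯 A), ∀ n, (xr y n : tC 𝒯 A) ∈ h →
    ∃ (t : List ℕ) (ρ : List Bool), n = Nat.pair (Pc t) (cd ρ) ∧
      (tND (t ++ [ρ.length]) : tC 𝒯 A) ∈ h ∧ tE 𝒯 A (pre y ρ) ∈ h := by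
  have h1 : ∀ᶠ h in ae (tC 𝒯 A), ∀ n : ℕ, (⨆ t : List ℕ, ⨆ ρ : List Bool,
      ⨆ _ : n = Nat.pair (Pc t) (cd ρ), (tND (t ++ [ρ.length]) : tC 𝒯 A) ⊓ tE 𝒯 A (pre y ρ)) ∈ h ↔
      ∃ t : List ℕ, (⨆ ρ : List Bool, ⨆ _ : n = Nat.pair (Pc t) (cd ρ),
        (tND (t ++ [ρ.length]) : tC 𝒯 A) ⊓ tE 𝒯 A (pre y ρ)) ∈ h :=
    ae_all fun n => ae_iSup _
  have h2 : ∀ᶠ h in ae (tC 𝒯 A), ∀ (n : ℕ) (t : List ℕ), (⨆ ρ : List Bool,
      ⨆ _ : n = Nat.pair (Pc t) (cd ρ), (tND (t ++ [ρ.length]) : tC 𝒯 A) ⊓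
        tE 𝒯 A (pre y ρ)) ∈ h ↔ ∃ ρ : List Bool, (⨆ _ : n = Nat.pair (Pc t) (cd ρ),
        (tND (t ++ [ρ.length]) : tC 𝒯 A) ⊓ tE 𝒯 A (pre y ρ)) ∈ h :=
    ae_all fun n => ae_all fun t => ae_iSup _
  filter_upwards [h1, h2] with h g1 g2 n hn
  obtain ⟨t, ht⟩ := (g1 n).1 hn
  obtain ⟨ρ, hρ⟩ := (g2 n t).1 ht
  by_cases hp : n = Nat.pair (Pc t) (cd ρ)
  · rw [iSup_pos hp] at hρ
    exact ⟨t, ρ, hp, (h.mem_inf.1 hρ).1, (h.mem_inf.1 hρ).2⟩
  · rw [iSup_neg hp] at hρ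
    exact absurd hρ h.not_bot

theorem ae_disn {D : Type u} [CompleteBooleanAlgebra D] (n : ℕ) (x Y : ℕ → D) :
    ∀ᶠ g in ae D, (∀ p, n ≤ p → ∀ i, x (Nat.pair p i) ∈ g → Y (Nat.pair p i) ∉ g) →
      disn n x Y ∈ g := by
  have h1 := ae_iInf (A := D) fun p : ℕ => ⨅ _ : n ≤ p, ⨅ i,
    (x (Nat.pair p i) ⊓ Y (Nat.pair p i))ᶜ
  have h2 : ∀ᶠ g in ae D, ∀ p : ℕ, (⨅ _ : n ≤ p, ⨅ i,
      (x (Nat.pair p i) ⊓ Y (Nat.pair p i))ᶜ) ∈ g ↔ ∀ _ : n ≤ p, (⨅ i,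
      (x (Nat.pair p i) ⊓ Y (Nat.pair p i))ᶜ) ∈ g := ae_all fun p => ae_iInf _
  have h3 : ∀ᶠ g in ae D, ∀ p : ℕ, (⨅ i, (x (Nat.pair p i) ⊓ Y (Nat.pair p i))ᶜ) ∈ g ↔
      ∀ i, (x (Nat.pair p i) ⊓ Y (Nat.pair p i))ᶜ ∈ g := ae_all fun p => ae_iInf _
  filter_upwards [h1, h2, h3] with g g1 g2 g3 hg
  unfold disn
  rw [g1]
  intro p
  rw [g2]
  intro hp
  rw [g3]
  intro i
  rw [g.mem_compl, g.mem_inf]
  exact fun h => hg p hp i h.1 h.2

/-- The slalom contains all points `(Pc t, cd (y|l))`. -/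
theorem keyn_A (hme : MeasStatement.{u}) (hdix : DixStatement.{u})
    {φ : tC 𝒯 A → B} (hφ : IsCE φ) (hE : IsCE (tE 𝒯 A)) {c : B} {F : List Bool → List Bool → B}
    {N : Set El.{u}} (hev' : ∀ X : ℕ → B, ∀ᶠ g in ae B, rn N X ∈ g → EvG N X g)
    (m1 : ∀ (t : List ℕ) (ρ σ : List Bool), In N (c ⊓ φ (tND (t ++ [ρ.length])) ⊓ F σ ρ))
    (m2 : ∀ (t : List ℕ) (ρ σ : List Bool),
      In N (kap (c ⊓ φ (tND (t ++ [ρ.length])) ⊓ F σ ρ)))
    (m3 : ∀ (t : List ℕ) (ρ σ : List Bool), In N (keyn_w φ c F t ρ σ))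
    (m4 : ∀ σ : List Bool, In N (cy σ : RA B)) (m5 : ∀ n, In N (keyn_x φ c F n))
    (X Y : ℕ → tC 𝒯 A) (y : ℕ → A) (m : ℕ) :
    ∀ᶠ h in ae B, rn N (fun n => φ (X n)) ∈ h → c ∈ h →
      (disX 0 (keyn_x φ c F) (fun n => φ (rst m Y n)) fun n => φ (X n)) ∈ h →
      apv F (fun n => φ (X n)) (fun n => φ (tE 𝒯 A (y n))) ∈ h →
        φ (disn m (xr y) Y) ∈ h := by
  filter_upwards [hev' fun n => φ (X n), (hdix B).1 0 (keyn_x φ c F) (fun n => φ (rst m Y n))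
    fun n => φ (X n), ae_apv hme F (fun n => φ (X n)) (fun n => φ (tE 𝒯 A (y n))),
    ae_pull hφ (ae_xr (𝒯 := 𝒯) y), ae_pull hφ (ae_disn m (xr y) Y)]
    with h q1 q2 q3 q4 q5 hrn hc hdis hap
  have hG := q1 hrn
  refine q5 fun p hp i h1 h2 => ?_
  obtain ⟨t, ρ, he, h3, h4⟩ := q4 _ h1
  obtain ⟨σ, τ, hτ, h5, h6, h7⟩ := q3.1 hap ρ.length
  have h8 : res (vx (fun n => φ (tE 𝒯 A (y n))) h) ρ.length = ρ :=
    ((hme A).2.2.2.2.2.2.2.1 y ρ ((h.pull hφ).pull hE)).1 h4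
  have h9 : τ = ρ := eq_of_res h6 h8 hτ
  subst h9
  have h3' : φ (tND (t ++ [τ.length])) ∈ h := h3
  have h10 : ev (fun n => φ (X n)) (keyn_w φ c F t τ σ) ∈ h :=
    (hG.inf _ _ (m2 t τ σ) (m4 σ)).2 ⟨(hG.kp _ (m1 t τ σ)).2
      (h.mem_inf.2 ⟨h.mem_inf.2 ⟨hc, h3'⟩, h7⟩), (hG.cyl σ).2 h5⟩
  have h11 : ev (fun n => φ (X n)) (keyn_x φ c F (Nat.pair p i)) ∈ h :=
    hG.mono _ _ (m3 t τ σ) (m5 _) (he ▸ keyn_le φ c F t τ σ) h10
  have h12 : φ (rst m Y (Nat.pair p i)) ∈ h := by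
    rw [rst_eq (by rw [Nat.unpair_pair]; exact hp)]
    exact h2
  exact q2.1 hdis p (Nat.zero_le _) i h11 h12

theorem ae_th (φ : tC 𝒯 A → B) (G : List Bool → List Bool → B) (ψ : ℕ → A) :
    ∀ᶠ h in ae B, ∀ n, keyn_th φ G ψ n ∈ h ↔ ∃ ρ σ : List Bool, σ[n]? = some true ∧
      φ (tE 𝒯 A (pre ψ ρ)) ∈ h ∧ G ρ σ ∈ h := by
  have h1 : ∀ᶠ h in ae B, ∀ n : ℕ, (⨆ ρ : List Bool, ⨆ σ : List Bool,
      ⨆ _ : σ[n]? = some true, φ (tE 𝒯 A (pre ψ ρ)) ⊓ G ρ σ) ∈ h ↔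
      ∃ ρ : List Bool, (⨆ σ : List Bool,
      ⨆ _ : σ[n]? = some true, φ (tE 𝒯 A (pre ψ ρ)) ⊓ G ρ σ) ∈ h := ae_all fun n => ae_iSup _
  have h2 : ∀ᶠ h in ae B, ∀ (n : ℕ) (ρ : List Bool), (⨆ σ : List Bool,
      ⨆ _ : σ[n]? = some true, φ (tE 𝒯 A (pre ψ ρ)) ⊓ G ρ σ) ∈ h ↔
      ∃ σ : List Bool, (⨆ _ : σ[n]? = some true, φ (tE 𝒯 A (pre ψ ρ)) ⊓ G ρ σ) ∈ h :=
    ae_all fun n => ae_all fun ρ => ae_iSup _
  filter_upwards [h1, h2] with h g1 g2 n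
  unfold keyn_th
  rw [g1]
  refine exists_congr fun ρ => ?_
  rw [g2]
  refine exists_congr fun σ => ?_
  by_cases hn : σ[n]? = some true
  · simp only [hn, iSup_pos, h.mem_inf, true_and]
  · simp [hn, h.not_bot]

/-- The final contradiction. -/
theorem keyn_B (hcm : CmStatement) (hme : MeasStatement.{u})
    {φ : tC 𝒯 A → B} (hφ : IsCE φ) (hE : IsCE (tE 𝒯 A)) {c : B} {G : List Bool → List Bool → B}
    (hGc : Cons c G)
    {N : Set El.{u}} (hev' : ∀ X : ℕ → B, ∀ᶠ g in ae B, rn N X ∈ g → EvG N X g)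
    (ψ : ℕ → A) (m1 : In N (keyn_E (keyn_th φ G ψ))) (X : ℕ → tC 𝒯 A) (y : ℕ → A) :
    ∀ᶠ h in ae B, rn N (fun n => φ (X n)) ∈ h → c ∈ h →
      apv G (fun n => φ (tE 𝒯 A (y n))) (fun n => φ (X n)) ∈ h →
        φ (tE 𝒯 A (eqr y ψ)) ∈ h → False := by
  filter_upwards [hev' fun n => φ (X n),
    ae_apv hme G (fun n => φ (tE 𝒯 A (y n))) (fun n => φ (X n)), ae_th φ G ψ,
    ae_pull hφ (ae_pull hE ((hme A).2.2.2.2.2.2.2.2 y ψ))]
    with h q1 q2 q3 q4 hrn hc hap heq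
  have hG := q1 hrn
  have h9 : vx y ((h.pull hφ).pull hE) = vx ψ ((h.pull hφ).pull hE) := q4.1 heq
  have hpre := fun ρ => (hme A).2.2.2.2.2.2.2.1 ψ ρ ((h.pull hφ).pull hE)
  refine hG.nul _ m1 (keyn_E_meas _) (keyn_E_nl hcm _) ?_
  show vx (fun n => φ (X n)) h = vx (keyn_th φ G ψ) h
  funext n
  obtain ⟨ρ, τ, hτ, h5, h6, h7⟩ := q2.1 hap (n + 1)
  have hlt : n < τ.length := by omega
  have hget : τ[n]? = some (vx (fun n => φ (X n)) h n) := get_of_res h6 hlt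
  have h5' : res (vx y ((h.pull hφ).pull hE)) ρ.length = ρ := h5
  have key : φ (X n) ∈ h ↔ keyn_th φ G ψ n ∈ h := by
    constructor
    · intro hX
      refine (q3 n).2 ⟨ρ, τ, ?_, (hpre ρ).2 (by rw [← h9]; exact h5'), h7⟩
      rw [hget]
      simp [vx, hX]
    · intro hth
      obtain ⟨ρ', τ', h10, h11, h12⟩ := (q3 n).1 hth
      have h13 : res (vx y ((h.pull hφ).pull hE)) ρ'.length = ρ' := by
        rw [h9]
        exact (hpre ρ').1 h11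
      have h14 : Cpb τ τ' := by
        by_contra hcon
        have h15 := hGc ρ ρ' τ τ' (cpb_of_res h5' h13) hcon
        have h16 : c ⊓ G ρ τ ⊓ G ρ' τ' ∈ h := h.mem_inf.2 ⟨h.mem_inf.2 ⟨hc, h7⟩, h12⟩
        rw [h15] at h16
        exact h.not_bot h16
      have hlt' : n < τ'.length := by
        by_contra hcon
        rw [List.getElem?_eq_none (by omega)] at h10
        simp at h10
      rw [← get_of_cpb h14 hlt hlt', hget] at h10
      simpa [vx] using h10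
  unfold vx
  exact decide_eq_decide.2 key

end

theorem keyn (hcm : CmStatement) (hme : MeasStatement.{u}) (hkap : KapStatement.{u})
    (hrfm : RfmStatement.{u}) (hevx : EvxStatement.{u}) (hdix : DixStatement.{u})
    (hgnd : GndStatement.{u}) (hcod : CodStatement) : KeynStatement.{u} := by
  intro 𝒯 h𝒯 hst A B _ _ φ hprp hφ hprx c hc0 F G hF hG hall
  have : Nonempty (TX 𝒯 A) := (hgnd 𝒯 h𝒯 A).1
  have hE : IsCE (tE 𝒯 A) := (all_tw1 A (TX 𝒯 A) (TQ 𝒯 A)).1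
  have hsl : Sl (keyn_x φ c F) := keyn_sl hkap hgnd hcod h𝒯 hφ hF
  obtain ⟨z, hz2, hz⟩ := H70.key_int H95.lb W.All.itp H82.sla (hrfm _ B φ hφ).1 (kap c) hsl
  obtain ⟨hne, -, -, hcst, -, hfun, -⟩ := all_club.{u}
  have m1 : ∀ᶠ N in club, ∀ (t : List ℕ) (ρ σ : List Bool),
      In N (c ⊓ φ (tND (t ++ [ρ.length])) ⊓ F σ ρ) :=
    H12.club_all fun t => H12.club_all fun ρ => H12.club_all fun σ => hcst _ _
  have m2 : ∀ᶠ N in club, ∀ (t : List ℕ) (ρ σ : List Bool),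
      In N (kap (c ⊓ φ (tND (t ++ [ρ.length])) ⊓ F σ ρ)) :=
    H12.club_all fun t => H12.club_all fun ρ => H12.club_all fun σ => hcst _ _
  have m3 : ∀ᶠ N in club, ∀ (t : List ℕ) (ρ σ : List Bool), In N (keyn_w φ c F t ρ σ) :=
    H12.club_all fun t => H12.club_all fun ρ => H12.club_all fun σ => hcst _ _
  have m4 : ∀ᶠ N in club, ∀ σ : List Bool, In N (cy σ : RA B) :=
    H12.club_all fun σ => hcst _ _
  have m5 : ∀ᶠ N in club, ∀ n : ℕ, In N (keyn_x φ c F n) := H12.club_all fun n => hcst _ _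
  have hcl := ((((((((((((((hprx.and (hst A)).and hprp).and (hcst _ c)).and
    (hcst _ (prj φ c))).and (hcst _ (kap c : RA B))).and (hcst _ (kap (prj φ c)))).and
    (hcst _ (itp (rmap φ) (prj (rmap φ)) (kap c) (keyn_x φ c F) z))).and
    (hcst _ (keyn_x φ c F))).and (hcst _ z)).and (hcst _ (prj (tE 𝒯 A) (prj φ c)))).and
    ((hevx (tC 𝒯 A)).2.1.and (hevx B).2.1)).and (m1.and (m2.and m3))).and (m4.and m5)).and
    (hfun _ _ fun ψ : ℕ → A => keyn_E (keyn_th φ G ψ)))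
  obtain ⟨N, -, -, hN⟩ := hne _ hcl ∅ Set.countable_empty
  obtain ⟨⟨⟨⟨⟨⟨⟨⟨⟨⟨⟨⟨⟨⟨n1, n2⟩, n3⟩, n4⟩, n5⟩, n6⟩, n7⟩, n8⟩, n9⟩, n10⟩, n11⟩, n12, n13⟩, n14, n15,
    n16⟩, n17, n18⟩, n19⟩ := hN
  have hc1 : prj φ c ≠ ⊥ := fun h =>
    hc0 (((all_alg _ B φ hφ).2.2.2.2.2.2.2.2.2.2.2.2.2.2.2.2.2.1 c).1 h)
  have hc2 : prj (tE 𝒯 A) (prj φ c) ≠ ⊥ := fun h =>
    hc1 (((all_alg _ _ (tE 𝒯 A) hE).2.2.2.2.2.2.2.2.2.2.2.2.2.2.2.2.2.1 _).1 h)
  obtain ⟨p, hp0, hpc, -, X, Y, hpXY, hsep⟩ := n2 (prj φ c) n5 (gen A N ⊓ prj (tE 𝒯 A) (prj φ c))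
    (n3 _ n11 hc2) le_rfl
  obtain ⟨m, b, hb0, hbc, hbp, hbr, hbd⟩ := keyn_cond hdix hrfm hφ n12 n13
    (fun X Y => n1 X Y (kap c) (keyn_x φ c F) z n6 n9 hsl n10) n4 n5 n7 n8 hz hz2 n10 hp0 hpc hpXY
  -- the name `y`
  have h1 : b ≤ ⨆ y : ℕ → A, apv F (fun n => φ (X n)) (fun n => φ (tE 𝒯 A (y n))) ⊓
      apv G (fun n => φ (tE 𝒯 A (y n))) (fun n => φ (X n)) := hbc.trans (hall X)
  obtain ⟨y, hy⟩ : ∃ y : ℕ → A, b ⊓ (apv F (fun n => φ (X n)) (fun n => φ (tE 𝒯 A (y n))) ⊓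
      apv G (fun n => φ (tE 𝒯 A (y n))) (fun n => φ (X n))) ≠ ⊥ := by
    by_contra hcon
    push Not at hcon
    apply hb0
    have e : b ⊓ (⨆ y : ℕ → A, apv F (fun n => φ (X n)) (fun n => φ (tE 𝒯 A (y n))) ⊓
        apv G (fun n => φ (tE 𝒯 A (y n))) (fun n => φ (X n))) = ⊥ := by
      rw [inf_iSup_eq]
      exact iSup_eq_bot.2 hcon
    rwa [inf_eq_left.2 h1] at e
  have hle := (all_alg _ B φ hφ).2.2.2.2.1
  have hfi := (all_alg _ B φ hφ).2.2.1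
  have h2 : b ⊓ (apv F (fun n => φ (X n)) (fun n => φ (tE 𝒯 A (y n))) ⊓
      apv G (fun n => φ (tE 𝒯 A (y n))) (fun n => φ (X n))) ≤ φ (disn m (xr y) Y) := by
    refine le_of_ae ?_
    filter_upwards [keyn_A hme hdix hφ hE n13 n14 n15 n16 n17 n18 X Y y m] with h hh hb1
    have h3 : b ∈ h := h.mono inf_le_left hb1
    have h4 := h.mem_inf.1 (h.mono inf_le_right hb1)
    exact hh (h.mono hbr h3) (h.mono hbc h3) (h.mono hbd h3) h4.1
  have h3 : b ⊓ (apv F (fun n => φ (X n)) (fun n => φ (tE 𝒯 A (y n))) ⊓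
      apv G (fun n => φ (tE 𝒯 A (y n))) (fun n => φ (X n))) ≤
      φ (⨆ ψ : {ψ : ℕ → A // In N ψ}, tE 𝒯 A (eqr y ψ.1)) := by
    have h4 : p ⊓ ⨆ n, disn n (xr y) Y ≤ ⨆ ψ : {ψ : ℕ → A // In N ψ}, tE 𝒯 A (eqr y ψ.1) := by
      refine (hsep y).trans (iSup_le fun ψ => iSup_le fun hψ => ?_)
      exact le_iSup (fun ψ : {ψ : ℕ → A // In N ψ} => tE 𝒯 A (eqr y ψ.1)) ⟨ψ, hψ⟩
    refine le_trans ?_ ((hle _ _).2 h4)
    refine le_trans ?_ (le_of_eq (hfi _ _).symm)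
    exact le_inf (inf_le_left.trans hbp)
      (h2.trans ((hle _ _).2 (le_iSup (fun n => disn n (xr y) Y) m)))
  obtain ⟨ψ, hψN, hψ⟩ : ∃ ψ : ℕ → A, In N ψ ∧
      b ⊓ (apv F (fun n => φ (X n)) (fun n => φ (tE 𝒯 A (y n))) ⊓
      apv G (fun n => φ (tE 𝒯 A (y n))) (fun n => φ (X n))) ⊓ φ (tE 𝒯 A (eqr y ψ)) ≠ ⊥ := by
    by_contra hcon
    push Not at hcon
    apply hy
    rw [(all_alg _ B φ hφ).2.2.2.2.2.1 {ψ : ℕ → A // In N ψ} fun ψ => tE 𝒯 A (eqr y ψ.1)] at h3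
    rw [← inf_eq_left.2 h3, inf_iSup_eq]
    exact iSup_eq_bot.2 fun ψ => hcon ψ.1 ψ.2
  obtain ⟨h, hh, hf⟩ :=
    exists_of_ae (keyn_B hcm hme hφ hE hG n13 ψ (n19 ψ hψN) X y) hψ
  have h4 := h.mem_inf.1 hh
  have h5 := h.mem_inf.1 h4.1
  exact hf (h.mono hbr h5.1) (h.mono hbc h5.1) (h.mem_inf.1 h5.2).2 h4.2

end Pool.Agent.Lib.MP_a78e1f_lc.H50
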